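import Pool.Agent.Helper50.SG.HierMain

/-!
# The Mayer-Vietoris inequalities for the `ℓ²`-Betti numbers of a group acting on a tree

* `TD.exists_mv`: the inequalities between `b_i(Γ)`, `∑_v b_i(Γ_v)` and `∑_e b_i(Γ_e)`;
* `van_tree`, `van_vertex`, `van_edge`: the consequences for the vanishing.
-/

set_option autoImplicit false
set_option linter.unusedSectionVars false

universe u v w

namespace Singer

open SingerPD

namespace TD

/-- the Mayer-Vietoris inequalities -/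
theorem exists_mv {Γ : Type*} [Group Γ] (D : TD Γ) (RC : ∀ e, Res.{0} (D.C e)) (RA : ∀ v, Res.{0} (D.A v)) :
    ∃ S : Res.{0} Γ, S.toHC.h 0 ≤ ∑ v, (RA v).toHC.h 0 ∧
      (∀ i, S.toHC.h (i + 1) ≤ ∑ v, (RA v).toHC.h (i + 1) + ∑ e, (RC e).toHC.h i) ∧
      (∀ i, ∑ v, (RA v).toHC.h i ≤ S.toHC.h i + ∑ e, (RC e).toHC.h i) ∧
      ∀ i, ∑ e, (RC e).toHC.h i ≤ S.toHC.h (i + 1) + ∑ v, (RA v).toHC.h i := by
  obtain ⟨H, -⟩ : ∃ _ : ∀ v (η : D.En v), PreMap ((RC η.1.1).toPreRes.ind (inj η) (inj_injective η)) (RA v).toPreRes,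
      True := ⟨fun v η => (exists_premap _ (RA v)).some, trivial⟩
  obtain ⟨S, hS⟩ := exists_res (RC := RC) (RA := RA) H
  have k0 : ∀ i, 0 ≤ (map (RC := fun e => (RC e).toPreRes) (RA := fun v => (RA v).toPreRes) H).kap i := fun i =>
    (map (RC := fun e => (RC e).toPreRes) (RA := fun v => (RA v).toPreRes) H).toHMap.kap_nonneg i
  have k1 : ∀ i, (map (RC := fun e => (RC e).toPreRes) (RA := fun v => (RA v).toPreRes) H).kap i ≤
      ∑ e, (RC e).toHC.h i := fun i => by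
    have h1 := (map (RC := fun e => (RC e).toPreRes) (RA := fun v => (RA v).toPreRes) H).toHMap.kap_le i
    rw [XX_h] at h1
    exact h1
  have k2 : ∀ i, 0 ≤ (map (RC := fun e => (RC e).toPreRes) (RA := fun v => (RA v).toPreRes) H).kap i +
      ∑ v, (RA v).toHC.h i - ∑ e, (RC e).toHC.h i := fun i => by
    have h1 := (map (RC := fun e => (RC e).toPreRes) (RA := fun v => (RA v).toPreRes) H).toHMap.coker_nonneg i
    rw [XX_h, YY_h] at h1
    exact h1
  have e0 : S.toHC.h 0 = ∑ v, (RA v).toHC.h 0 - ∑ e, (RC e).toHC.h 0 +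
      (map (RC := fun e => (RC e).toPreRes) (RA := fun v => (RA v).toPreRes) H).kap 0 := by
    rw [hS]
    exact h_zero (RC := fun e => (RC e).toPreRes) (RA := fun v => (RA v).toPreRes) H
  have e1 : ∀ i, S.toHC.h (i + 1) = (map (RC := fun e => (RC e).toPreRes) (RA := fun v => (RA v).toPreRes) H).kap i +
      (∑ v, (RA v).toHC.h (i + 1) - ∑ e, (RC e).toHC.h (i + 1) +
        (map (RC := fun e => (RC e).toPreRes) (RA := fun v => (RA v).toPreRes) H).kap (i + 1)) := fun i => by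
    rw [hS]
    exact h_succ (RC := fun e => (RC e).toPreRes) (RA := fun v => (RA v).toPreRes) H i
  refine ⟨S, ?_, fun i => ?_, fun i => ?_, fun i => ?_⟩
  · have := k1 0
    linarith
  · have := k1 i
    have := k1 (i + 1)
    have := e1 i
    linarith
  · cases i with
    | zero =>
      have := k0 0
      linarith
    | succ i =>
      have := k0 i
      have := k0 (i + 1)
      have := e1 i
      linarith
  · have := k2 i
    have := k2 (i + 1)
    have := e1 i
    linarith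

end TD

section tree
variable {Γ : Type u} {V : Type v} [Group Γ] [MulAction Γ V]

/-- the vanishing of the Betti number does not depend on the resolution -/
theorem Res.h_zero_of {Γ : Type*} [Group Γ] {i : ℕ} (h : ∀ R : Res.{0} Γ, R.Z i ≤ R.B i) (R : Res.{0} Γ) :
    R.toHC.h i = 0 := (Res.h_eq_zero_iff R i).2 (h R)

/-- **Mayer-Vietoris, the group**: if the vertex stabilizers have no `ℓ²`-homology in degree `i` and the edge stabilizers
in degree `i - 1`, then the group has no `ℓ²`-homology in degree `i` -/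
theorem van_tree (T : SimpleGraph V) (tree : T.IsTree)
    (act : ∀ (g : Γ) (v w : V), T.Adj v w → T.Adj (g • v) (g • w))
    (inv : ∀ (g : Γ) (v w : V), T.Adj v w → g • v = w → g • w ≠ v)
    (F K : Finset V) (hF : ∀ v, ∃ x ∈ F, ∃ g : Γ, g • x = v) (hK : ∀ v w, T.Adj v w → ∃ g : Γ, g • v ∈ K ∧ g • w ∈ K)
    (RV : ∀ v : V, Nonempty (FinRes (MulAction.stabilizer Γ v)))
    (RE : ∀ v w, T.Adj v w → Nonempty (FinRes (MulAction.stabilizer Γ v ⊓ MulAction.stabilizer Γ w : Subgroup Γ)))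
    {i : ℕ} (hV : ∀ x ∈ F, ∀ R : Res.{0} (MulAction.stabilizer Γ x), R.Z i ≤ R.B i)
    (hE : ∀ j, j + 1 = i → ∀ v w, T.Adj v w →
      ∀ R : Res.{0} (MulAction.stabilizer Γ v ⊓ MulAction.stabilizer Γ w : Subgroup Γ), R.Z j ≤ R.B j)
    (R : Res.{0} Γ) : R.Z i ≤ R.B i := by
  classical
  obtain ⟨P, hP⟩ := exists_trep tree act inv F hF K hK
  obtain ⟨RA, -⟩ : ∃ _ : ∀ v : P.td.Ve, Res.{0} (P.td.A v), True := ⟨fun v => (RV (P.x v)).some.toRes, trivial⟩
  obtain ⟨RC, -⟩ : ∃ _ : ∀ e : P.td.Ed, Res.{0} (P.td.C e), True := ⟨fun e => (RE _ _ (P.ay e)).some.toRes, trivial⟩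
  obtain ⟨S, h0, h1, -, -⟩ := TD.exists_mv P.td RC RA
  rw [← Res.h_eq_zero_iff, Res.h_eq R S]
  refine le_antisymm ?_ (HC.h_nonneg _ i)
  have hv : ∑ v, (RA v).toHC.h i = 0 :=
    Finset.sum_eq_zero fun v _ => Res.h_zero_of (hV (P.x v) (hP v)) _
  cases i with
  | zero => exact h0.trans hv.le
  | succ i =>
    have he : ∑ e, (RC e).toHC.h i = 0 :=
      Finset.sum_eq_zero fun e _ => Res.h_zero_of (hE i rfl _ _ (P.ay e)) _
    have h2 := h1 i
    rw [hv, he, add_zero] at h2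
    exact h2

/-- the vanishing for isomorphic groups -/
theorem van_of_equiv {A B : Type*} [Group A] [Group B] (e : A ≃* B) (F : FinRes A) {i : ℕ}
    (h : ∀ R : Res.{0} A, R.Z i ≤ R.B i) (R : Res.{0} B) : R.Z i ≤ R.B i := by
  refine (R.van_iff_index e.toMonoidHom e.injective ?_ F i).1 ((F.van_iff_le i).2 (h _))
  have h1 : e.toMonoidHom.range = ⊤ := MonoidHom.range_eq_top.2 e.surjective
  rw [h1]
  infer_instance

/-- the stabilizers of the points of an orbit -/
noncomputable def stabEquiv (g : Γ) (v : V) : MulAction.stabilizer Γ v ≃* MulAction.stabilizer Γ (g • v) :=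
  (Subgroup.equivMapOfInjective (MulAction.stabilizer Γ v) (MulAut.conj g).toMonoidHom (MulAut.conj g).injective).trans
    (MulEquiv.subgroupCongr (MulAction.stabilizer_smul_eq_stabilizer_map_conj g v).symm)

/-- **Mayer-Vietoris, the vertices**: if the group and the edge stabilizers have no `ℓ²`-homology in degree `i`, then the
vertex stabilizers have none -/
theorem van_vertex (T : SimpleGraph V) (tree : T.IsTree)
    (act : ∀ (g : Γ) (v w : V), T.Adj v w → T.Adj (g • v) (g • w))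
    (inv : ∀ (g : Γ) (v w : V), T.Adj v w → g • v = w → g • w ≠ v)
    (F K : Finset V) (hF : ∀ v, ∃ x ∈ F, ∃ g : Γ, g • x = v) (hK : ∀ v w, T.Adj v w → ∃ g : Γ, g • v ∈ K ∧ g • w ∈ K)
    (RV : ∀ v : V, Nonempty (FinRes (MulAction.stabilizer Γ v)))
    (RE : ∀ v w, T.Adj v w → Nonempty (FinRes (MulAction.stabilizer Γ v ⊓ MulAction.stabilizer Γ w : Subgroup Γ)))
    {i : ℕ} (hΓ : ∀ R : Res.{0} Γ, R.Z i ≤ R.B i)
    (hE : ∀ v w, T.Adj v w →
      ∀ R : Res.{0} (MulAction.stabilizer Γ v ⊓ MulAction.stabilizer Γ w : Subgroup Γ), R.Z i ≤ R.B i)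
    (v : V) (R : Res.{0} (MulAction.stabilizer Γ v)) : R.Z i ≤ R.B i := by
  classical
  obtain ⟨P, hP⟩ := exists_trep tree act inv F hF K hK
  obtain ⟨RA, -⟩ : ∃ _ : ∀ v : P.td.Ve, Res.{0} (P.td.A v), True := ⟨fun v => (RV (P.x v)).some.toRes, trivial⟩
  obtain ⟨RC, -⟩ : ∃ _ : ∀ e : P.td.Ed, Res.{0} (P.td.C e), True := ⟨fun e => (RE _ _ (P.ay e)).some.toRes, trivial⟩
  obtain ⟨S, -, -, h2, -⟩ := TD.exists_mv P.td RC RA
  have he : ∑ e, (RC e).toHC.h i = 0 :=
    Finset.sum_eq_zero fun e _ => Res.h_zero_of (hE _ _ (P.ay e)) _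
  have h3 := h2 i
  rw [he, add_zero, Res.h_zero_of hΓ S] at h3
  obtain ⟨j, g, rfl⟩ := P.hx v
  have h4 : ∀ R : Res.{0} (MulAction.stabilizer Γ (P.x j)), R.Z i ≤ R.B i := by
    intro R'
    rw [← Res.h_eq_zero_iff, Res.h_eq R' (show Res.{0} (MulAction.stabilizer Γ (P.x j)) from RA j)]
    refine le_antisymm ?_ (HC.h_nonneg _ i)
    refine le_trans ?_ h3
    exact Finset.single_le_sum (f := fun v : P.td.Ve => (RA v).toHC.h i)
      (fun v _ => HC.h_nonneg _ i) (Finset.mem_univ (show P.td.Ve from j))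
  exact van_of_equiv (stabEquiv g (P.x j)) (RV (P.x j)).some h4 R

/-- the stabilizers of the edges of an orbit -/
noncomputable def stabEquiv2 (g : Γ) (v w : V) :
    (MulAction.stabilizer Γ v ⊓ MulAction.stabilizer Γ w : Subgroup Γ) ≃*
      (MulAction.stabilizer Γ (g • v) ⊓ MulAction.stabilizer Γ (g • w) : Subgroup Γ) :=
  (Subgroup.equivMapOfInjective (MulAction.stabilizer Γ v ⊓ MulAction.stabilizer Γ w) (MulAut.conj g).toMonoidHom
    (MulAut.conj g).injective).trans (MulEquiv.subgroupCongr (by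
      rw [Subgroup.map_inf _ _ _ (MulAut.conj g).injective, MulAction.stabilizer_smul_eq_stabilizer_map_conj g v,
        MulAction.stabilizer_smul_eq_stabilizer_map_conj g w]))

/-- **Mayer-Vietoris, the edges**: if the group has no `ℓ²`-homology in degree `i + 1` and the
vertex stabilizers in degree `i`, then the edge stabilizers have none in degree `i` -/
theorem van_edge (T : SimpleGraph V) (tree : T.IsTree)
    (act : ∀ (g : Γ) (v w : V), T.Adj v w → T.Adj (g • v) (g • w))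
    (inv : ∀ (g : Γ) (v w : V), T.Adj v w → g • v = w → g • w ≠ v)
    (F K : Finset V) (hF : ∀ v, ∃ x ∈ F, ∃ g : Γ, g • x = v) (hK : ∀ v w, T.Adj v w → ∃ g : Γ, g • v ∈ K ∧ g • w ∈ K)
    (RV : ∀ v : V, Nonempty (FinRes (MulAction.stabilizer Γ v)))
    (RE : ∀ v w, T.Adj v w → Nonempty (FinRes (MulAction.stabilizer Γ v ⊓ MulAction.stabilizer Γ w : Subgroup Γ)))
    {i : ℕ} (hΓ : ∀ R : Res.{0} Γ, R.Z (i + 1) ≤ R.B (i + 1))
    (hV : ∀ x ∈ F, ∀ R : Res.{0} (MulAction.stabilizer Γ x), R.Z i ≤ R.B i)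
    (v w : V) (hvw : T.Adj v w) (R : Res.{0} (MulAction.stabilizer Γ v ⊓ MulAction.stabilizer Γ w : Subgroup Γ)) :
    R.Z i ≤ R.B i := by
  classical
  obtain ⟨P, hP⟩ := exists_trep tree act inv F hF K hK
  obtain ⟨RA, -⟩ : ∃ _ : ∀ v : P.td.Ve, Res.{0} (P.td.A v), True := ⟨fun v => (RV (P.x v)).some.toRes, trivial⟩
  obtain ⟨RC, -⟩ : ∃ _ : ∀ e : P.td.Ed, Res.{0} (P.td.C e), True := ⟨fun e => (RE _ _ (P.ay e)).some.toRes, trivial⟩
  obtain ⟨S, -, -, -, h2⟩ := TD.exists_mv P.td RC RA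
  have hv : ∑ v, (RA v).toHC.h i = 0 :=
    Finset.sum_eq_zero fun v _ => Res.h_zero_of (hV (P.x v) (hP v)) _
  have h3 := h2 i
  rw [hv, add_zero, Res.h_zero_of hΓ S] at h3
  have h5 : ∀ e : Fin P.m, ∀ R : Res.{0} (MulAction.stabilizer Γ (P.y e true) ⊓
      MulAction.stabilizer Γ (P.y e false) : Subgroup Γ), R.Z i ≤ R.B i := by
    intro e R'
    rw [← Res.h_eq_zero_iff, Res.h_eq R' (show Res.{0} (MulAction.stabilizer Γ (P.y e true) ⊓
      MulAction.stabilizer Γ (P.y e false) : Subgroup Γ) from RC e)]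
    refine le_antisymm ?_ (HC.h_nonneg _ i)
    refine le_trans ?_ h3
    exact Finset.single_le_sum (f := fun e : P.td.Ed => (RC e).toHC.h i)
      (fun e _ => HC.h_nonneg _ i) (Finset.mem_univ (show P.td.Ed from e))
  obtain ⟨e, g, b, rfl, rfl⟩ := P.hy v w hvw
  refine van_of_equiv (stabEquiv2 g (P.y e b) (P.y e (!b))) (RE _ _ (P.ay' e b)).some ?_ R
  cases b
  · refine van_of_equiv (MulEquiv.subgroupCongr (inf_comm _ _)) (RE _ _ (P.ay e)).some (h5 e)
  · exact h5 e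

end tree

end Singer
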