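import Pool.Agent.Helper50.SG.HierStmt
import Pool.Agent.Singer.Gen.TDMain
import Pool.Agent.Singer.Gen.TreeAct
import Pool.Agent.Singer.Gen.MirPres
import Pool.Agent.Singer.Stmt5Conv
import Pool.Agent.Singer.TConcl
import Pool.Agent.Singer.Index

/-!
# Groups in the class `Hier n` have no `ℓ²`-homology outside the middle degree

* `tree_le`: the inequality `b_i(Γ) ≤ ∑_v b_i(M_v)` for resolutions;
* `Hier.van`: the vanishing.
-/

set_option autoImplicit false

universe u v w

namespace Singer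

open SingerPD

/-- vanishing of the Betti number of a resolution -/
theorem Res.h_eq_zero_iff {Γ : Type*} [Group Γ] (R : Res.{0} Γ) (i : ℕ) :
    R.toPreRes.toHC.h i = 0 ↔ R.Z i ≤ R.B i := by
  rw [HC.h_eq_zero_iff, PreRes.toHC_Z]
  rfl

/-- groups commensurable with a right-angled Coxeter group of the class -/
theorem van_cox {n : ℕ} {V : Type} {L : SimpleGraph V} (hL : SingerFold.Cls n L) {K Γ : Type*} [Group K] [Group Γ]
    (k : K →* Cox L) (j : K →* Γ) (hk : Function.Injective k) (hkf : k.range.FiniteIndex) (hj : Function.Injective j)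
    (hjf : j.range.FiniteIndex) (R : Res.{0} Γ) {i : ℕ} (hi : 2 * i ≠ n) : R.Z i ≤ R.B i := by
  classical
  have hV : Finite V := hL.finite
  have : Fintype V := Fintype.ofFinite V
  obtain ⟨H0, hf0', hinv0⟩ : ∃ H : Subgroup (RACG L), H.FiniteIndex ∧ NoInv H :=
    ⟨ker2 L, finiteIndex_ker2 L, noInv_ker2 L⟩
  have hkf' : k.range.FiniteIndex := hkf
  have hjf' : j.range.FiniteIndex := hjf
  -- the subgroup `H0 ∩ k(K)`
  let H : Subgroup (Cox L) := H0 ⊓ k.range
  have hHf : H.FiniteIndex := ⟨Subgroup.index_inf_ne_zero hf0'.index_ne_zero hkf'.index_ne_zero⟩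
  have hHi : NoInv H := fun h hh => hinv0 h hh.1
  obtain ⟨F, -⟩ := exists_finRes_of_noInv hHf hHi
  let e : K ≃* k.range := MonoidHom.ofInjective hk
  let f : H →* Γ := (j.comp e.symm.toMonoidHom).comp (Subgroup.inclusion inf_le_right)
  have hf : Function.Injective f := by
    refine hj.comp (e.symm.injective.comp ?_)
    exact Subgroup.inclusion_injective inf_le_right
  have hrange : f.range = (H0.comap k).map j := by
    ext x
    constructor
    · rintro ⟨⟨y, hy1, hy2⟩, rfl⟩
      obtain ⟨z, rfl⟩ := hy2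
      refine ⟨z, hy1, ?_⟩
      show j z = j (e.symm ⟨k z, _⟩)
      congr 1
      rw [MulEquiv.eq_symm_apply]
      rfl
    · rintro ⟨z, hz, rfl⟩
      refine ⟨⟨k z, hz, ⟨z, rfl⟩⟩, ?_⟩
      show j (e.symm ⟨k z, _⟩) = j z
      congr 1
      rw [MulEquiv.symm_apply_eq]
      rfl
  have hfi : f.range.FiniteIndex := by
    rw [hrange]
    constructor
    rw [Subgroup.index_map_of_injective _ hj]
    have h1 : (H0.comap k).index ≠ 0 := by
      rw [Subgroup.index_comap]
      exact fun h0 => hf0'.index_ne_zero (Subgroup.index_eq_zero_of_relIndex_eq_zero h0)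
    exact mul_ne_zero h1 hjf'.index_ne_zero
  exact (R.van_iff_index f hf hfi F i).1 ((F.van_iff_vanE i).2 (vanE_of_good hL.good hHf F hi))

section tree
variable {Γ : Type u} {V : Type v} [Group Γ] [MulAction Γ V]

/-- the inequality for resolutions: the right hand side is a sum over the image of an injective map `c` to the given family
of vertices -/
theorem tree_le (T : SimpleGraph V) (tree : T.IsTree)
    (act : ∀ (g : Γ) (v w : V), T.Adj v w → T.Adj (g • v) (g • w))
    (inv : ∀ (g : Γ) (v w : V), T.Adj v w → g • v = w → g • w ≠ v)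
    {J : Type w} [Fintype J] (x : J → V) (hx : ∀ v, ∃ (j : J) (g : Γ), g • x j = v)
    (K : Finset V) (hK : ∀ v w, T.Adj v w → ∃ g : Γ, g • v ∈ K ∧ g • w ∈ K)
    (RV : ∀ v : V, FinRes (MulAction.stabilizer Γ v))
    (RE : ∀ v w, T.Adj v w → FinRes (MulAction.stabilizer Γ v ⊓ MulAction.stabilizer Γ w : Subgroup Γ)) :
    ∃ (S : Res.{0} Γ) (I : Finset J) (SM : ∀ j : I, Res.{0} (MirrorGroup Γ T (x j.1))),
      ∀ i, S.toHC.h i ≤ ∑ j : I, (SM j).toHC.h i := by
  classical
  obtain ⟨P, hP⟩ := exists_trep tree act inv (Finset.univ.image x) (fun v => by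
    obtain ⟨j, g, hg⟩ := hx v
    exact ⟨x j, Finset.mem_image_of_mem _ (Finset.mem_univ j), g, hg⟩) K hK
  have hP' : ∀ v, ∃ j, x j = P.x v := fun v => by
    obtain ⟨j, _, hj⟩ := Finset.mem_image.1 (hP v)
    exact ⟨j, hj⟩
  choose c hc using hP'
  have hinj : Function.Injective c := by
    intro a b hab
    refine P.ux a b 1 ?_
    rw [one_smul, ← hc a, ← hc b, hab]
  obtain ⟨S, SM, h⟩ := TD.exists_le (D := P.td) (fun v => (P.md v).equiv (mirrorEquiv T (P.x v) P.act))
    (fun e => (RE _ _ (P.ay e)).toRes) fun v => (RV (P.x v)).toRes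
  have h2 : ∀ v, ∃ Q : Res.{0} (MirrorGroup Γ T (x (c v))), ∀ i, Q.toHC.h i = (SM v).toHC.h i := by
    intro v
    have h3 : ∀ (u : V) (hu : u = P.x v), ∃ Q : Res.{0} (MirrorGroup Γ T u), ∀ i, Q.toHC.h i = (SM v).toHC.h i := by
      intro u hu
      subst hu
      exact ⟨SM v, fun i => rfl⟩
    exact h3 _ (hc v)
  choose Q hQ using h2
  have h4 : ∀ j : (Finset.univ.image c : Finset J), ∃ v, c v = j.1 := fun j => by
    obtain ⟨v, _, hv⟩ := Finset.mem_image.1 j.2
    exact ⟨v, hv⟩
  choose d hd using h4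
  refine ⟨S, Finset.univ.image c, fun j => (hd j) ▸ Q (d j), fun i => (h i).trans (le_of_eq ?_)⟩
  have h5 : ∀ (j : J) (v) (hv : c v = j), (hv ▸ Q v : Res.{0} (MirrorGroup Γ T (x j))).toHC.h i =
      (SM v).toHC.h i := by
    intro j v hv
    subst hv
    exact hQ v i
  refine Finset.sum_bij' (fun v _ => (⟨c v, Finset.mem_image_of_mem _ (Finset.mem_univ v)⟩ :
    (Finset.univ.image c : Finset J))) (fun j _ => d j) (fun _ _ => Finset.mem_univ _)
    (fun _ _ => Finset.mem_univ _) (fun v _ => hinj (hd _)) (fun j _ => Subtype.ext (hd j)) fun v _ => ?_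
  rw [h5 _ _ (hd ⟨c v, Finset.mem_image_of_mem _ (Finset.mem_univ v)⟩)]
  rw [hinj (hd ⟨c v, Finset.mem_image_of_mem _ (Finset.mem_univ v)⟩)]

end tree

/-- **vanishing** for the groups of the class -/
theorem Hier.van {n : ℕ} {Γ : Type u} [Group Γ] (h : Hier n Γ) {i : ℕ} (hi : 2 * i ≠ n) (R : Res.{0} Γ) :
    R.Z i ≤ R.B i := by
  induction h with
  | cox L k j hL hk hkf hj hjf => exact van_cox hL k j hk hkf hj hjf R hi
  | supergroup j hj hf _ ih =>
    obtain ⟨T⟩ := exists_trv_hom j hj hf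
    exact (T.vanish_iff R i).1 (ih (T.res R))
  | @tree Γ V _ _ T F K tree act inv hF hK RV RE _ ih =>
    classical
    obtain ⟨S, I, SM, h⟩ := tree_le T tree act inv (fun x : F => x.1) (fun v => by
      obtain ⟨x, hx, g, hg⟩ := hF v
      exact ⟨⟨x, hx⟩, g, hg⟩) K hK (fun v => (RV v).some) (fun v w hvw => (RE v w hvw).some)
    rw [← Res.h_eq_zero_iff, Res.h_eq R S]
    refine le_antisymm ((h i).trans (le_of_eq ?_)) (HC.h_nonneg _ i)
    refine Finset.sum_eq_zero fun j _ => ?_
    exact (Res.h_eq_zero_iff (SM j) i).2 (ih j.1.1 j.1.2 (SM j))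

theorem Hier.betti_eq_zero {n : ℕ} {Γ : Type u} [Group Γ] (h : Hier n Γ) {i : ℕ} (hi : 2 * i ≠ n) (R : FinRes Γ) :
    R.betti i = 0 := by
  rw [R.betti_eq, Res.h_eq_zero_iff]
  exact h.van hi _

end Singer
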