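import Pool.Agent.Helper50.SG.HStmt
import Pool.Agent.Helper50.SG.HierMain
import Pool.Agent.Helper42.SQ.ResDown
import Pool.Agent.SQ.LemAll
import Pool.Agent.SQ.FreeRes
import Pool.Agent.SQ.T2.Fin2
import Pool.Agent.SQ.T2.Racg

/-!
# Groups in the class `SQ.Hier n` have no `ℓ²`-homology outside the middle degree
-/

set_option autoImplicit false

universe u

namespace SQ

open Singer

/-- Poincare duality groups which embed in a right-angled Coxeter group -/
theorem vanE_pd_racg {V : Type} [Finite V] (G : SimpleGraph V) {K : Type} [Group K] (k : K →* RACG G)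
    (hk : Function.Injective k) {n : ℕ} (hn : IsPD n K) (R : FinRes K) {i : ℕ} (hi : 2 * i ≠ n) : R.VanE i := by
  have : Fintype V := Fintype.ofFinite V
  let C : Subgroup K := (commutator (RACG G)).comap k
  have hfi : (commutator (RACG G)).FiniteIndex := FinSt.finiteIndex_commutator G
  have hC : C.FiniteIndex := ⟨by
    rw [Subgroup.index_comap, Subgroup.relIndex]
    exact Subgroup.FiniteIndex.index_ne_zero⟩
  refine FinRes.vanE_of_index C (fun R' => ?_) R
  let f : C →* commutator (RACG G) := (k.comp C.subtype).codRestrict (commutator (RACG G)) fun x => x.2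
  have hf : Function.Injective f := fun x y hxy => Subtype.ext (hk (congrArg Subtype.val hxy))
  exact T2.vanE_classT lem (T2.classT_of_racg G f hf) (hn.of_finiteIndex C) R' i hi

/-- the vanishing passes to groups with a subgroup of finite index isomorphic to `K` -/
theorem van_of_pd {K : Type} [Group K] {Γ : Type u} [Group Γ] (j : K →* Γ) (hj : Function.Injective j)
    (hjf : j.range.FiniteIndex) {n : ℕ} (hn : IsPD n K) {i : ℕ} (h : ∀ F : FinRes K, F.VanE i) (R : Res.{0} Γ) :
    R.Z i ≤ R.B i := by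
  obtain ⟨F⟩ := exists_finRes_of_isPD hn
  exact (R.van_iff_index j hj hjf F i).1 ((F.van_iff_vanE i).2 (h F))

/-- **vanishing** for the groups of the class -/
theorem Hier.van {n : ℕ} {Γ : Type u} [Group Γ] (h : Hier n Γ) {i : ℕ} (hi : 2 * i ≠ n) (R : Res.{0} Γ) :
    R.Z i ≤ R.B i := by
  induction h with
  | special G k j hn hk hj hjf => exact van_of_pd j hj hjf hn (fun F => vanE_pd_racg G k hk hn F hi) R
  | classT j hn hK hj hjf => exact van_of_pd j hj hjf hn (fun F => T2.vanE_classT lem hK hn F i hi) R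
  | supergroup j hj hf _ ih =>
    obtain ⟨T⟩ := exists_trv_hom j hj hf
    exact (T.vanish_iff R i).1 (ih (T.res R))
  | @tree Γ V _ _ T F K tree act inv hF hK RV RE _ ih =>
    classical
    obtain ⟨S, I, SM, h⟩ := tree_le T tree act inv (fun x : F => x.1) (fun v => by
      obtain ⟨x, hx, g, hg⟩ := hF v
      exact ⟨⟨x, hx⟩, g, hg⟩) K hK (fun v => (RV v).some) (fun v w hvw => (RE v w hvw).some)
    rw [← Res.h_eq_zero_iff, Res.h_eq R S]
    refine le_antisymm ((h i).trans (le_of_eq ?_)) (HC.h_nonneg _ i)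
    refine Finset.sum_eq_zero fun j _ => ?_
    exact (Res.h_eq_zero_iff (SM j) i).2 (ih j.1.1 j.1.2 (SM j))

/-- the elementary form -/
theorem Hier.vanE {n : ℕ} {Γ : Type u} [Group Γ] (h : Hier n Γ) {i : ℕ} (hi : 2 * i ≠ n) (R : FinRes Γ) : R.VanE i := by
  rw [← R.van_iff_vanE, R.van_iff_le]
  exact h.van hi _

theorem Hier.betti_eq_zero {n : ℕ} {Γ : Type u} [Group Γ] (h : Hier n Γ) {i : ℕ} (hi : 2 * i ≠ n) (R : FinRes Γ) :
    R.betti i = 0 := by
  rw [R.betti_eq, Res.h_eq_zero_iff]
  exact h.van hi _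

end SQ
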