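import Pool.Agent.Singer.FinStmt
import Pool.Agent.Singer.PDStmt
import Pool.Agent.Singer.Gen.MirStmt
import Pool.Agent.SQ.T2.Defs

/-!
# A class of groups which is closed under gluing

`Hier n Γ`: the smallest class of groups which contains all groups with a subgroup of finite index `K` which is an
`n`-dimensional Poincare duality group and which embeds in the right-angled Coxeter group of a finite graph (`special`) or
is in `T2.ClassT` (`classT`), and which is closed under extension to groups containing a group of the class as a
subgroup of finite index (`supergroup`), and under gluing (`tree`).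
-/

set_option autoImplicit false

universe u

namespace SQ

open Singer

/-- The class of groups.  `special`: it contains `Γ` if some Poincare duality group `K` of dimension `n` has an injective
homomorphism to the right-angled Coxeter group of a finite graph and an injective homomorphism `j` to `Γ` whose image
has finite index.  `classT`: the same for the groups `K` in `T2.ClassT`.
`supergroup`: it contains `Γ` if it contains a group isomorphic to a subgroup of finite index of `Γ`.  `tree`: let `Γ` act
on a tree `T` without inversions, with finitely many orbits of vertices and edges, such that the stabilizers of vertices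
and edges are of type `FP_∞`; if the mirrored groups `MirrorGroup Γ T x` are in the class for a finite set of vertices `x`
which meets all orbits, then `Γ` is in the class. -/
inductive Hier (n : ℕ) : ∀ (Γ : Type u) [Group Γ], Prop
  | special {Γ : Type u} [Group Γ] {V : Type} [Finite V] (G : SimpleGraph V) {K : Type} [Group K] (k : K →* RACG G)
      (j : K →* Γ) : IsPD n K → Function.Injective k → Function.Injective j → j.range.FiniteIndex → Hier n Γ
  | classT {Γ : Type u} [Group Γ] {K : Type} [Group K] (j : K →* Γ) :
      IsPD n K → T2.ClassT K → Function.Injective j → j.range.FiniteIndex → Hier n Γ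
  | supergroup {Γ H : Type u} [Group Γ] [Group H] (j : H →* Γ) : Function.Injective j → j.range.FiniteIndex → Hier n H →
      Hier n Γ
  | tree {Γ V : Type u} [Group Γ] [MulAction Γ V] (T : SimpleGraph V) (F K : Finset V) :
      T.IsTree → (∀ (g : Γ) (v w : V), T.Adj v w → T.Adj (g • v) (g • w)) →
      (∀ (g : Γ) (v w : V), T.Adj v w → g • v = w → g • w ≠ v) →
      (∀ v, ∃ x ∈ F, ∃ g : Γ, g • x = v) →
      (∀ v w, T.Adj v w → ∃ g : Γ, g • v ∈ K ∧ g • w ∈ K) →
      (∀ v : V, Nonempty (FinRes (MulAction.stabilizer Γ v))) →
      (∀ v w, T.Adj v w →
        Nonempty (FinRes (MulAction.stabilizer Γ v ⊓ MulAction.stabilizer Γ w : Subgroup Γ))) →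
      (∀ x ∈ F, Hier n (MirrorGroup Γ T x)) → Hier n Γ

end SQ
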