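import Pool.Agent.Singer.Stmt5
import Pool.Agent.Singer.FinStmt
import Pool.Agent.Singer.Gen.MirStmt

/-!
# A class of groups which is closed under gluing

`Hier n Γ`: the smallest class of groups which contains all groups commensurable with a right-angled Coxeter group `Cox L`,
`L` in the class `Cls n` of graphs, and which is closed under extension to groups containing a group of the class as a
subgroup of finite index (`supergroup`), and under gluing (`tree`).
-/

set_option autoImplicit false

universe u

namespace Singer

open SingerPD

/-- The class of groups.  `cox`: it contains all groups commensurable with `Cox L`, `L` in `Cls n` (`k` and `j` are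
isomorphisms of `K` with subgroups of finite index).  `supergroup`: it contains `Γ` if it contains a group isomorphic to a subgroup
of finite index of `Γ`.  `tree`: let `Γ` act on a tree `T` without inversions, with finitely many orbits of vertices and
edges, such that the stabilizers of vertices and edges are of type `FP_∞`; if the mirrored groups `MirrorGroup Γ T x`
are in the class for a finite set of vertices `x` which meets all orbits, then `Γ` is in the class. -/
inductive Hier (n : ℕ) : ∀ (Γ : Type u) [Group Γ], Prop
  | cox {Γ : Type u} [Group Γ] {V : Type} (L : SimpleGraph V) {K : Type} [Group K] (k : K →* Cox L) (j : K →* Γ) :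
      SingerFold.Cls n L → Function.Injective k → k.range.FiniteIndex → Function.Injective j → j.range.FiniteIndex →
      Hier n Γ
  | supergroup {Γ H : Type u} [Group Γ] [Group H] (j : H →* Γ) : Function.Injective j → j.range.FiniteIndex → Hier n H →
      Hier n Γ
  | tree {Γ V : Type u} [Group Γ] [MulAction Γ V] (T : SimpleGraph V) (F K : Finset V) :
      T.IsTree → (∀ (g : Γ) (v w : V), T.Adj v w → T.Adj (g • v) (g • w)) →
      (∀ (g : Γ) (v w : V), T.Adj v w → g • v = w → g • w ≠ v) →
      (∀ v, ∃ x ∈ F, ∃ g : Γ, g • x = v) →
      (∀ v w, T.Adj v w → ∃ g : Γ, g • v ∈ K ∧ g • w ∈ K) →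
      (∀ v : V, Nonempty (FinRes (MulAction.stabilizer Γ v))) →
      (∀ v w, T.Adj v w →
        Nonempty (FinRes (MulAction.stabilizer Γ v ⊓ MulAction.stabilizer Γ w : Subgroup Γ))) →
      (∀ x ∈ F, Hier n (MirrorGroup Γ T x)) → Hier n Γ

end Singer
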